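import Mathlib
import Pool.Agent.H33.Fib

set_option autoImplicit false

namespace Pool.Agent.Results.MP_75e24b_ag.SquareInConductor

open MvPolynomial

/-- The map from R[y_1..y_m] to R[t] sending y_j to f_j t; its kernel is J. -/
noncomputable def reesMap {R : Type} [CommRing R] {m : ℕ} (f : Fin m → R) :
    MvPolynomial (Fin m) R →ₐ[R] Polynomial R :=
  aeval fun j => Polynomial.C (f j) * Polynomial.X

/-- The ideal L generated by the linear relations. -/
noncomputable def linIdeal {R : Type} [CommRing R] {m : ℕ} (f : Fin m → R) :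
    Ideal (MvPolynomial (Fin m) R) :=
  Ideal.span {g | ∃ a : Fin m → R, ∑ i, a i * f i = 0 ∧ g = ∑ i, C (a i) * X i}

/-- The conductor: the r in R with r J contained in L. -/
noncomputable def conductor {R : Type} [CommRing R] {m : ℕ} (f : Fin m → R) : Ideal R where
  carrier := {r | ∀ g : MvPolynomial (Fin m) R, reesMap f g = 0 → C r * g ∈ linIdeal f}
  add_mem' := by
    intro a b ha hb g hg
    rw [map_add, add_mul]
    exact add_mem (ha g hg) (hb g hg)
  zero_mem' := by
    intro g _
    simp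
  smul_mem' := by
    intro c a ha g hg
    rw [smul_eq_mul, map_mul, mul_assoc]
    exact Ideal.mul_mem_left _ _ (ha g hg)

/-- The map from K[y_1..y_m] to R[t] sending y_j to f_j t; its kernel is H. -/
noncomputable def fiberMap {K : Type} [Field K] {n m : ℕ} (f : Fin m → MvPolynomial (Fin n) K) :
    MvPolynomial (Fin m) K →ₐ[K] Polynomial (MvPolynomial (Fin n) K) :=
  aeval fun j => Polynomial.C (f j) * Polynomial.X

/-- Fiber type: J = L + H T. -/
def FiberType {K : Type} [Field K] {n m : ℕ} (f : Fin m → MvPolynomial (Fin n) K) : Prop :=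
  RingHom.ker (reesMap f) = linIdeal f ⊔
    (RingHom.ker (fiberMap f)).map (MvPolynomial.map (C : K →+* MvPolynomial (Fin n) K))

/-- The squarefree monomial with support S. -/
noncomputable def sqMon (K : Type) [Field K] {n : ℕ} (S : Finset (Fin n)) :
    MvPolynomial (Fin n) K := ∏ i ∈ S, X i

/-- An ideal generated by squarefree monomials. -/
def IsSquarefreeMonomialIdeal {K : Type} [Field K] {n : ℕ} (I : Ideal (MvPolynomial (Fin n) K)) :
    Prop := ∃ A : Set (Finset (Fin n)), I = Ideal.span (sqMon K '' A)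

def SS : Fin 6 → Finset (Fin 6) := ![{0, 1, 2}, {3, 4}, {0, 3}, {1, 2, 4}, {0, 1, 5}, {2, 4, 5}]

variable {K : Type} [Field K]

abbrev RR (K : Type) [Field K] : Type := MvPolynomial (Fin 6) K
abbrev TT (K : Type) [Field K] : Type := MvPolynomial (Fin 6) (RR K)

noncomputable def ff (K : Type) [Field K] : Fin 6 → RR K :=
  ![X 0 * X 1 * X 2, X 3 * X 4, X 0 * X 3, X 1 * X 2 * X 4, X 0 * X 1 * X 5, X 2 * X 4 * X 5]

lemma f0 : ff K 0 = X 0 * X 1 * X 2 := rfl
lemma f1 : ff K 1 = X 3 * X 4 := rfl
lemma f2 : ff K 2 = X 0 * X 3 := rfl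
lemma f3 : ff K 3 = X 1 * X 2 * X 4 := rfl
lemma f4 : ff K 4 = X 0 * X 1 * X 5 := rfl
lemma f5 : ff K 5 = X 2 * X 4 * X 5 := rfl

lemma ff_eq : (fun j => sqMon K (SS j)) = ff K := by
  ext1 j
  fin_cases j <;> simp [sqMon, SS, ff, mul_assoc]

noncomputable def hh (K : Type) [Field K] : TT K := X 0 * X 1 - X 2 * X 3

noncomputable def M0 (K : Type) [Field K] : Ideal (TT K) := linIdeal (ff K) ⊔ Ideal.span {hh K}

lemma pair_mem (i j : Fin 6) (u v : RR K) (h : u * ff K i = v * ff K j) :
    (C u * X i - C v * X j : TT K) ∈ linIdeal (ff K) := by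
  apply Ideal.subset_span
  refine ⟨Pi.single i u - Pi.single j v, ?_, ?_⟩
  · simp [sub_mul, Finset.sum_sub_distrib, Pi.single_apply, h]
  · simp [sub_mul, Finset.sum_sub_distrib, Pi.single_apply, apply_ite C]

lemma rel : Pool.Agent.H33.Fib.Rel (fun i => Ideal.Quotient.mk (M0 K) (C (X i)))
    (fun j => Ideal.Quotient.mk (M0 K) (X j)) := by
  have key : ∀ (i j : Fin 6) (u v : RR K), u * ff K i = v * ff K j →
      Ideal.Quotient.mk (M0 K) (C u * X i) = Ideal.Quotient.mk (M0 K) (C v * X j) :=
    fun i j u v h => Ideal.Quotient.eq.2 (Ideal.mem_sup_left (pair_mem i j u v h))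
  constructor
  · have := key 0 1 (X 3 * X 4) (X 0 * X 1 * X 2) (by rw [f0, f1]; ring)
    simp only [map_mul] at this
    exact this
  · have := key 0 2 (X 3) (X 1 * X 2) (by rw [f0, f2]; ring)
    simp only [map_mul] at this
    exact this
  · have := key 0 3 (X 4) (X 0) (by rw [f0, f3]; ring)
    simp only [map_mul] at this
    exact this
  · have := key 0 4 (X 5) (X 2) (by rw [f0, f4]; ring)
    simp only [map_mul] at this
    exact this
  · have := key 0 5 (X 4 * X 5) (X 0 * X 1) (by rw [f0, f5]; ring)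
    simp only [map_mul] at this
    exact this
  · have := key 1 2 (X 0) (X 4) (by rw [f1, f2]; ring)
    simp only [map_mul] at this
    exact this
  · have := key 1 3 (X 1 * X 2) (X 3) (by rw [f1, f3]; ring)
    simp only [map_mul] at this
    exact this
  · have := key 1 4 (X 0 * X 1 * X 5) (X 3 * X 4) (by rw [f1, f4]; ring)
    simp only [map_mul] at this
    exact this
  · have := key 1 5 (X 2 * X 5) (X 3) (by rw [f1, f5]; ring)
    simp only [map_mul] at this
    exact this
  · have := key 2 3 (X 1 * X 2 * X 4) (X 0 * X 3) (by rw [f2, f3]; ring)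
    simp only [map_mul] at this
    exact this
  · have := key 2 4 (X 1 * X 5) (X 3) (by rw [f2, f4]; ring)
    simp only [map_mul] at this
    exact this
  · have := key 2 5 (X 2 * X 4 * X 5) (X 0 * X 3) (by rw [f2, f5]; ring)
    simp only [map_mul] at this
    exact this
  · have := key 3 4 (X 0 * X 5) (X 2 * X 4) (by rw [f3, f4]; ring)
    simp only [map_mul] at this
    exact this
  · have := key 3 5 (X 5) (X 1) (by rw [f3, f5]; ring)
    simp only [map_mul] at this
    exact this
  · have := key 4 5 (X 2 * X 4) (X 0 * X 1) (by rw [f4, f5]; ring)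
    simp only [map_mul] at this
    exact this
  · have : Ideal.Quotient.mk (M0 K) (X 0 * X 1) = Ideal.Quotient.mk (M0 K) (X 2 * X 3) :=
      Ideal.Quotient.eq.2 (Ideal.mem_sup_right (Ideal.subset_span rfl))
    simp only [map_mul] at this
    exact this

noncomputable def EE (a p : Fin 6 →₀ ℕ) : Fin 6 →₀ ℕ :=
  Finsupp.equivFunOnFinite.symm ![a 0 + p 0 + p 2 + p 4, a 1 + p 0 + p 3 + p 4,
    a 2 + p 0 + p 3 + p 5, a 3 + p 1 + p 2, a 4 + p 1 + p 3 + p 5, a 5 + p 4 + p 5]

def tot (p : Fin 6 →₀ ℕ) : ℕ := p 0 + p 1 + p 2 + p 3 + p 4 + p 5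

lemma rees_mono (a p : Fin 6 →₀ ℕ) (c : K) :
    reesMap (ff K) (monomial p (monomial a c)) =
      Polynomial.monomial (tot p) (monomial (EE a p) c) := by
  rw [reesMap, aeval_monomial, Finsupp.prod_fintype _ _ (by simp), monomial_eq, monomial_eq,
    Finsupp.prod_fintype _ _ (by simp), Finsupp.prod_fintype _ _ (by simp),
    ← Polynomial.C_mul_X_pow_eq_monomial]
  simp [Fin.prod_univ_six, EE, tot, ff, pow_add, mul_pow]
  ring

lemma mk_mono (a p : Fin 6 →₀ ℕ) :
    Ideal.Quotient.mk (M0 K) (monomial p (monomial a 1)) =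
      Pool.Agent.H33.Fib.mono (fun i => Ideal.Quotient.mk (M0 K) (C (X i)))
        (fun j => Ideal.Quotient.mk (M0 K) (X j)) (a 0) (a 1) (a 2) (a 3) (a 4) (a 5)
        (p 0) (p 1) (p 2) (p 3) (p 4) (p 5) := by
  rw [monomial_eq, monomial_eq, Finsupp.prod_fintype _ _ (by simp),
    Finsupp.prod_fintype _ _ (by simp)]
  simp [Fin.prod_univ_six, Pool.Agent.H33.Fib.mono, mul_assoc]

lemma conn (a p b q : Fin 6 →₀ ℕ) (h1 : EE a p = EE b q) (h2 : tot p = tot q) :
    Ideal.Quotient.mk (M0 K) (monomial p (monomial a 1)) =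
      Ideal.Quotient.mk (M0 K) (monomial q (monomial b 1)) := by
  rw [mk_mono, mk_mono]
  apply Pool.Agent.H33.Fib.good rel (tot p)
  have e := fun i => congrArg (fun w : Fin 6 →₀ ℕ => w i) h1
  have e0 := e 0
  have e1 := e 1
  have e2 := e 2
  have e3 := e 3
  have e4 := e 4
  have e5 := e 5
  simp [EE] at e0 e1 e2 e3 e4 e5
  unfold tot at *
  unfold Pool.Agent.H33.Fib.Cond
  omega

open Classical in
noncomputable def sec (K : Type) [Field K] (k : ℕ) (α : Fin 6 →₀ ℕ) : TT K ⧸ M0 K :=
  if h : ∃ w : (Fin 6 →₀ ℕ) × (Fin 6 →₀ ℕ), EE w.1 w.2 = α ∧ tot w.2 = k then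
    Ideal.Quotient.mk (M0 K) (monomial h.choose.2 (monomial h.choose.1 1)) else 0

lemma sec_eq (a p : Fin 6 →₀ ℕ) :
    sec K (tot p) (EE a p) = Ideal.Quotient.mk (M0 K) (monomial p (monomial a 1)) := by
  have h : ∃ w : (Fin 6 →₀ ℕ) × (Fin 6 →₀ ℕ), EE w.1 w.2 = EE a p ∧ tot w.2 = tot p :=
    ⟨(a, p), rfl, rfl⟩
  rw [sec, dif_pos h]
  exact conn _ _ _ _ h.choose_spec.1 h.choose_spec.2

noncomputable def Sg (K : Type) [Field K] : Polynomial (RR K) →ₗ[K] TT K ⧸ M0 K :=
  Polynomial.lsum fun k => (basisMonomials (Fin 6) K).constr K (sec K k)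

lemma Sg_rees (g : TT K) : Sg K (reesMap (ff K) g) = Ideal.Quotient.mk (M0 K) g := by
  induction g using MvPolynomial.induction_on' with
  | add p q hp hq => simp only [map_add, hp, hq]
  | monomial p r =>
    induction r using MvPolynomial.induction_on' with
    | add r s hr hs => simp only [map_add, hr, hs]
    | monomial a c =>
      rw [rees_mono]
      have e1 : (monomial (EE a p) c : RR K) = c • basisMonomials (Fin 6) K (EE a p) := by
        simp [smul_monomial]
      have e2 : (monomial p (monomial a c) : TT K) = c • monomial p (monomial a 1) := by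
        simp [smul_monomial]
      rw [Sg, Polynomial.lsum_apply, Polynomial.sum_monomial_index _ _ (by simp), e1, map_smul,
        Module.Basis.constr_basis, sec_eq, e2]
      rfl

lemma ker_le (g : TT K) (hg : reesMap (ff K) g = 0) : g ∈ M0 K := by
  have := Sg_rees g
  rw [hg, map_zero] at this
  exact Ideal.Quotient.eq_zero_iff_mem.1 this.symm

lemma lin_le : linIdeal (ff K) ≤ RingHom.ker (reesMap (ff K)) := by
  rw [linIdeal, Ideal.span_le]
  rintro _ ⟨a, ha, rfl⟩
  have := congrArg (fun r => Polynomial.C r * Polynomial.X) ha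
  simp only [map_sum, map_mul, Finset.sum_mul, map_zero, zero_mul] at this
  simp only [SetLike.mem_coe, RingHom.mem_ker, reesMap, map_sum, map_mul, aeval_C, aeval_X,
    Polynomial.algebraMap_eq, ← mul_assoc]
  exact this

lemma fiber : FiberType (ff K) := by
  apply le_antisymm
  · intro g hg
    have h := ker_le g hg
    refine (sup_le_sup_left ?_ _ : M0 K ≤ _) h
    rw [Ideal.span_le]
    rintro _ rfl
    have e : hh K = MvPolynomial.map (C : K →+* RR K) (X 0 * X 1 - X 2 * X 3) := by simp [hh]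
    rw [e]
    apply Ideal.mem_map_of_mem
    simp [RingHom.mem_ker, fiberMap, ff]
    ring
  · refine sup_le lin_le ?_
    rw [Ideal.map_le_iff_le_comap]
    intro g hg
    have e : ∀ g : MvPolynomial (Fin 6) K,
        reesMap (ff K) (MvPolynomial.map (C : K →+* RR K) g) = fiberMap (ff K) g := by
      intro g
      induction g using MvPolynomial.induction_on with
      | C a => simp [reesMap, fiberMap]
      | add p q hp hq => simp only [map_add, hp, hq]
      | mul_X p i hp => simp only [map_mul, hp]; simp [reesMap, fiberMap]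
    rw [Ideal.mem_comap, RingHom.mem_ker, e]
    exact hg

lemma sq_mem : (X 5 * X 5 : RR K) ∈ conductor (ff K) := by
  intro g hg
  obtain ⟨l, hl, w, hw, rfl⟩ := Submodule.mem_sup.1 (ker_le g hg)
  obtain ⟨t, rfl⟩ := Ideal.mem_span_singleton'.1 hw
  rw [mul_add]
  refine add_mem (Ideal.mul_mem_left _ _ hl) ?_
  have h1 := pair_mem (K := K) 0 4 (X 5) (X 2) (by simp [ff]; ring)
  have h2 := pair_mem (K := K) 1 5 (X 2 * X 5) (X 3) (by simp [ff]; ring)
  have h3 := pair_mem (K := K) 2 4 (X 1 * X 5) (X 3) (by simp [ff]; ring)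
  have h4 := pair_mem (K := K) 3 5 (X 5) (X 1) (by simp [ff]; ring)
  have e : (C (X 5 * X 5) * (t * hh K) : TT K) = t * (C (X 5) * X 1 * (C (X 5) * X 0 - C (X 2) * X 4)
      + X 4 * (C (X 2 * X 5) * X 1 - C (X 3) * X 5) - X 5 * (C (X 1 * X 5) * X 2 - C (X 3) * X 4)
      - C (X 5) * X 2 * (C (X 5) * X 3 - C (X 1) * X 5)) := by
    simp only [hh, map_mul]; ring
  rw [e]
  exact Ideal.mul_mem_left _ _ (sub_mem (sub_mem (add_mem (Ideal.mul_mem_left _ _ h1)
    (Ideal.mul_mem_left _ _ h2)) (Ideal.mul_mem_left _ _ h3)) (Ideal.mul_mem_left _ _ h4))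

noncomputable def psi (K : Type) [Field K] : RR K →+* Polynomial K :=
  eval₂Hom Polynomial.C ![0, 0, Polynomial.X, 0, 0, Polynomial.X]

noncomputable def sig (K : Type) [Field K] (v : Fin 6 → Polynomial (Polynomial K)) :
    RR K →+* Polynomial (Polynomial K) := eval₂Hom (Polynomial.C.comp Polynomial.C) v

lemma sig_coeff (v : Fin 6 → Polynomial (Polynomial K))
    (hv : ∀ i, (v i).coeff 0 = ![0, 0, Polynomial.X, 0, 0, Polynomial.X] i) (r : RR K) :
    (sig K v r).coeff 0 = psi K r := by
  induction r using MvPolynomial.induction_on with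
  | C a => simp [sig, psi]
  | add p q hp hq => simp only [map_add, Polynomial.coeff_add, hp, hq]
  | mul_X p i hp =>
    simp only [map_mul, Polynomial.mul_coeff_zero, hp]
    simp [sig, psi, hv]

noncomputable def Psi (K : Type) [Field K] : TT K →+* Polynomial K :=
  eval₂Hom (psi K) ![1, 1, 0, 0, 1, 0]

lemma Psi_lin (g : TT K) (hg : g ∈ linIdeal (ff K)) : Polynomial.X ^ 2 ∣ Psi K g := by
  have : linIdeal (ff K) ≤ (Ideal.span {Polynomial.X ^ 2}).comap (Psi K) := by
    rw [linIdeal, Ideal.span_le]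
    rintro _ ⟨a, ha, rfl⟩
    rw [SetLike.mem_coe, Ideal.mem_comap, Ideal.mem_span_singleton]
    let v1 : Fin 6 → Polynomial (Polynomial K) :=
      ![Polynomial.X, Polynomial.X, Polynomial.C Polynomial.X, 0, 0, Polynomial.C Polynomial.X]
    let v2 : Fin 6 → Polynomial (Polynomial K) :=
      ![0, 0, Polynomial.C Polynomial.X, Polynomial.X, Polynomial.X, Polynomial.C Polynomial.X]
    have c1 := sig_coeff v1 (by intro i; fin_cases i <;> simp [v1])
    have c2 := sig_coeff v2 (by intro i; fin_cases i <;> simp [v2])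
    have s1 : ∀ i, sig K v1 (X i) = v1 i := by intro i; simp [sig]
    have s2 : ∀ i, sig K v2 (X i) = v2 i := by intro i; simp [sig]
    have h1 := congrArg (sig K v1) ha
    have h2 := congrArg (sig K v2) ha
    simp [Fin.sum_univ_six, ff, s1, s2, v1, v2] at h1 h2
    have h3 : (sig K v1 (a 0) + sig K v1 (a 4)) *
        (Polynomial.X * Polynomial.X * Polynomial.C Polynomial.X) = 0 := by
      linear_combination h1
    have h4 := (mul_eq_zero.1 h3).resolve_right (by simp)
    have h5 := congrArg (fun q => Polynomial.coeff q 0) h4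
    simp only [Polynomial.coeff_add, c1, Polynomial.coeff_zero] at h5
    have h6 : (sig K v2 (a 1) * Polynomial.X + sig K v2 (a 5) * Polynomial.C (Polynomial.X ^ 2))
        * Polynomial.X = 0 := by
      rw [map_pow]; linear_combination h2
    have h7 := (mul_eq_zero.1 h6).resolve_right (by simp)
    have h8 := congrArg (fun q => Polynomial.coeff q 1) h7
    simp only [Polynomial.coeff_add, Polynomial.coeff_mul_X, Polynomial.coeff_mul_C, c2,
      Polynomial.coeff_zero] at h8
    refine ⟨-(sig K v2 (a 5)).coeff 1, ?_⟩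
    simp [Psi, Fin.sum_univ_six]
    linear_combination h5 + h8
  exact Ideal.mem_span_singleton.1 (this hg)

lemma not_mem : (X 5 : RR K) ∉ conductor (ff K) := by
  intro h
  have h1 := Psi_lin _ (h (hh K) (by simp [hh, reesMap, ff]; ring))
  simp [Psi, psi, hh] at h1
  have := Polynomial.natDegree_le_of_dvd h1 Polynomial.X_ne_zero
  simp at this

lemma not_sqfree : ¬ IsSquarefreeMonomialIdeal (conductor (ff K)) := by
  rintro ⟨A, hA⟩
  apply not_mem (K := K)
  by_contra hx
  have h1 : conductor (ff K) ≤ RingHom.ker (eval (Pi.single 5 1 : Fin 6 → K)) := by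
    rw [hA, Ideal.span_le]
    rintro _ ⟨S, hS, rfl⟩
    have hm : sqMon K S ∈ conductor (ff K) := hA ▸ Ideal.subset_span ⟨S, hS, rfl⟩
    by_cases hs : S ⊆ {5}
    · exfalso
      apply hx
      rcases Finset.subset_singleton_iff.1 hs with rfl | rfl
      · simpa [sqMon] using Ideal.mul_mem_left _ (X 5) hm
      · simpa [sqMon] using hm
    · obtain ⟨i, hi, hi5⟩ := Finset.not_subset.1 hs
      simp only [SetLike.mem_coe, RingHom.mem_ker, sqMon, map_prod, eval_X]
      exact Finset.prod_eq_zero hi (by simp [Pi.single_apply]; simpa using hi5)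
  have := h1 sq_mem
  simp [RingHom.mem_ker] at this

theorem result (K : Type) [Field K] :
    ∃ (n m : ℕ) (S : Fin m → Finset (Fin n)), (∀ i j, S i ⊆ S j → i = j) ∧
      FiberType (fun j => sqMon K (S j)) ∧
      ¬ IsSquarefreeMonomialIdeal (conductor (fun j => sqMon K (S j))) := by
  refine ⟨6, 6, SS, by decide, ?_, ?_⟩
  · rw [ff_eq]; exact fiber
  · rw [ff_eq]; exact not_sqfree

end Pool.Agent.Results.MP_75e24b_ag.SquareInConductor
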